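import Pool.Agent.H13.LN.Targets

/-!
# Module TOR of the board lnt_modules (MP_559314_gt): no torsion in `U / F d`
-/

set_option autoImplicit false

open Finset

namespace Pool.Agent.H13.LNT

open Pool.Agent.H59.LIN Pool.Agent.H13.LN
open scoped DirectSum

theorem castHom_zero {p a : ℕ} [NeZero (p ^ (a + 1))]
    (t : ZMod (p ^ (a + 1)))
    (h : ZMod.castHom (pow_dvd_pow p (Nat.le_succ a)) (ZMod (p ^ a)) t = 0) : p • t = 0 := by
  have h1 : ((t.val : ℕ) : ZMod (p ^ (a + 1))) = t := ZMod.natCast_zmod_val t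
  have h2 : ((t.val : ℕ) : ZMod (p ^ a)) = 0 := by
    rw [← h1, map_natCast] at h
    exact h
  have h3 : p ^ a ∣ t.val := (ZMod.natCast_eq_zero_iff _ _).1 h2
  have h4 : ((p * t.val : ℕ) : ZMod (p ^ (a + 1))) = 0 := by
    rw [ZMod.natCast_eq_zero_iff]
    obtain ⟨c, hc⟩ := h3
    exact ⟨c, by rw [hc, pow_succ]; ring⟩
  rw [nsmul_eq_mul, ← h1, ← Nat.cast_mul]
  exact h4

theorem castHom_one {p a : ℕ} (hp : p.Prime) (ha : 1 ≤ a) (t : ZMod (p ^ (a + 1)))
    (h : ZMod.castHom (pow_dvd_pow p (Nat.le_succ a)) (ZMod (p ^ a)) t = 1) :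
    (p ^ a) • t ≠ 0 := by
  have : NeZero (p ^ (a + 1)) := ⟨(pow_pos hp.pos _).ne'⟩
  have h1 : ((t.val : ℕ) : ZMod (p ^ (a + 1))) = t := ZMod.natCast_zmod_val t
  have h2 : ((t.val : ℕ) : ZMod (p ^ a)) = ((1 : ℕ) : ZMod (p ^ a)) := by
    rw [← h1, map_natCast] at h
    rw [h, Nat.cast_one]
  intro h3
  rw [nsmul_eq_mul, ← h1, ← Nat.cast_mul, ZMod.natCast_eq_zero_iff] at h3
  have h3' : p ^ a * p ∣ p ^ a * t.val := by rw [← pow_succ]; exact h3
  have h4 : p ∣ t.val := Nat.dvd_of_mul_dvd_mul_left (pow_pos hp.pos a) h3'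
  have h5 : t.val ≡ 1 [MOD p ^ a] := (ZMod.natCast_eq_natCast_iff _ _ _).1 h2
  have h6 : t.val ≡ 1 [MOD p] := h5.of_dvd (dvd_pow_self p (by omega))
  have h7 : (0 : ℕ) ≡ 1 [MOD p] := ((Nat.modEq_zero_iff_dvd.2 h4).symm).trans h6
  have h8 : p ∣ 1 := (Nat.modEq_iff_dvd' (Nat.zero_le 1)).1 h7
  exact hp.one_lt.ne' (Nat.dvd_one.1 h8)

/-- a finitely generated group with an element of order `p` has a direct summand `ℤ / p ^ a` -/
theorem exists_summand {G : Type} [AddCommGroup G] [AddGroup.FG G] {p : ℕ} (hp : p.Prime) (g : G)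
    (hg : g ≠ 0) (hpg : p • g = 0) : ∃ a, 1 ≤ a ∧ ∃ (f : G →+ ZMod (p ^ a)) (b : G),
      f b = 1 ∧ (p ^ a) • b = 0 := by
  classical
  obtain ⟨n, ι, fι, q, hq, e, ⟨E⟩⟩ := AddCommGroup.equiv_free_prod_directSum_zmod G
  have h1 : E g ≠ 0 := fun h => hg (E.map_eq_zero_iff.1 h)
  have h2 : p • E g = 0 := by rw [← map_nsmul, hpg, map_zero]
  have h3 : (E g).1 = 0 := by
    have h4 : p • (E g).1 = 0 := by
      have := congrArg Prod.fst h2
      simpa using this
    ext i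
    have h5 := DFunLike.congr_fun h4 i
    simp only [Finsupp.coe_smul, Pi.smul_apply, Finsupp.coe_zero, Pi.zero_apply,
      smul_eq_mul] at h5 ⊢
    have h6 : (p : ℤ) * (E g).1 i = 0 := by simpa using h5
    rcases mul_eq_zero.1 h6 with h7 | h7
    · exact absurd h7 (by exact_mod_cast hp.ne_zero)
    · exact h7
  have h4 : (E g).2 ≠ 0 := fun h => h1 (Prod.ext h3 h)
  have h5 : ∃ i, (E g).2 i ≠ 0 := by
    by_contra hcon
    push Not at hcon
    exact h4 (DFinsupp.ext hcon)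
  obtain ⟨i, hi⟩ := h5
  have h6 : p • (E g).2 i = 0 := by
    have h7 : p • (E g).2 = 0 := by
      have := congrArg Prod.snd h2
      simpa using this
    have h8 := congrArg (DirectSum.component ℤ ι (fun i => ZMod (q i ^ e i)) i) h7
    rw [map_nsmul, map_zero] at h8
    exact h8
  have he : 1 ≤ e i := by
    rcases Nat.eq_zero_or_pos (e i) with h | h
    · exfalso
      apply hi
      have : Subsingleton (ZMod (q i ^ e i)) := by
        rw [h, pow_zero]
        infer_instance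
      exact Subsingleton.elim _ _
    · exact h
  have hqp : q i = p := by
    by_contra hne
    apply hi
    have hc : Nat.Coprime p (q i ^ e i) :=
      Nat.Coprime.pow_right _ ((Nat.coprime_primes hp (hq i)).2 (fun h => hne h.symm))
    have hu : IsUnit ((p : ℕ) : ZMod (q i ^ e i)) := (ZMod.isUnit_iff_coprime _ _).2 hc
    rw [nsmul_eq_mul] at h6
    exact (hu.mul_right_eq_zero).1 h6
  refine ⟨e i, he, ?_⟩
  rw [← hqp]
  refine ⟨((DirectSum.component ℤ ι (fun i => ZMod (q i ^ e i)) i).toAddMonoidHom.comp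
    (AddMonoidHom.snd _ _)).comp E.toAddMonoidHom,
    E.symm (0, DirectSum.of (fun i => ZMod (q i ^ e i)) i 1), ?_, ?_⟩
  · have h9 : E (E.symm ((0 : Fin n →₀ ℤ), DirectSum.of (fun i => ZMod (q i ^ e i)) i 1)) =
        ((0 : Fin n →₀ ℤ), DirectSum.of (fun i => ZMod (q i ^ e i)) i 1) :=
      E.apply_symm_apply _
    have h10 : DirectSum.component ℤ ι (fun i => ZMod (q i ^ e i)) i
        (DirectSum.of (fun i => ZMod (q i ^ e i)) i 1) = 1 := by
      rw [← DirectSum.apply_eq_component, DirectSum.of_eq_same]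
    change DirectSum.component ℤ ι (fun i => ZMod (q i ^ e i)) i
      (E (E.symm ((0 : Fin n →₀ ℤ), DirectSum.of (fun i => ZMod (q i ^ e i)) i 1))).2 = 1
    rw [h9]
    exact h10
  · rw [← map_nsmul, E.symm.map_eq_zero_iff]
    refine Prod.ext (by simp) ?_
    simp only [Prod.smul_snd, Prod.snd_zero]
    rw [← map_nsmul, nsmul_eq_mul, mul_one, ZMod.natCast_self, map_zero]

theorem tor (U : Type) [AddCommGroup U] (F : ℕ → AddSubgroup U) (A : ℕ → Type)
    [∀ d, AddCommGroup (A d)] (hFGQ : T_FGQ U F A) : T_TOR U F A := by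
  intro S p hp hL hst d x hx
  by_contra hxn
  haveI : AddGroup.FG (U ⧸ F d) := hFGQ S d
  have h1 : (QuotientAddGroup.mk x : U ⧸ F d) ≠ 0 := by
    rw [Ne, QuotientAddGroup.eq_zero_iff]
    exact hxn
  have h2 : p • (QuotientAddGroup.mk x : U ⧸ F d) = 0 := by
    rw [← QuotientAddGroup.mk_nsmul, QuotientAddGroup.eq_zero_iff]
    exact hx
  obtain ⟨a, ha, f, b', hfb, hpb⟩ := exists_summand hp _ h1 h2
  obtain ⟨b, rfl⟩ := QuotientAddGroup.mk_surjective b'
  obtain ⟨M, f', hf'⟩ := hL a d f ha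
  have hb : (p ^ a) • b ∈ F d := by
    rw [← QuotientAddGroup.mk_nsmul, QuotientAddGroup.eq_zero_iff] at hpb
    exact hpb
  have hpp : p • ((p ^ (a - 1)) • b) = (p ^ a) • b := by
    rw [smul_smul, ← pow_succ', Nat.sub_add_cancel ha]
  obtain ⟨y, hy, z, hz, hyz⟩ := hst d (max d M) (le_max_left _ _) ((p ^ (a - 1)) • b)
    (by rw [hpp]; exact hb)
  rw [hpp] at hyz
  have hanti : Antitone F := antitone_nat_of_succ_le S.anti
  have hzM : z ∈ F M := hanti (le_max_right d M) hz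
  have h3 : f' (QuotientAddGroup.mk z) = 0 := by
    rw [(QuotientAddGroup.eq_zero_iff z).2 hzM, map_zero]
  have : NeZero (p ^ (a + 1)) := ⟨(pow_pos hp.pos _).ne'⟩
  have h4 : p • f' (QuotientAddGroup.mk y) = 0 := by
    apply castHom_zero
    rw [hf' y, (QuotientAddGroup.eq_zero_iff y).2 hy, map_zero]
  have h5 : (p ^ a) • f' (QuotientAddGroup.mk b) = 0 := by
    rw [← map_nsmul, ← QuotientAddGroup.mk_nsmul, hyz, QuotientAddGroup.mk_add, map_add, h3,
      add_zero, QuotientAddGroup.mk_nsmul, map_nsmul, h4]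
  exact castHom_one hp ha _ (by rw [hf' b, hfb]) h5

end Pool.Agent.H13.LNT
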