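import Pool.Agent.H13.LN.Targets

/-!
# Module APY of the board lnt_modules (MP_559314_gt): `ℤ / p`, if there is no torsion of order `p`
-/

set_option autoImplicit false

open Finset

namespace Pool.Agent.H13.LNT

open Pool.Agent.H59.LIN Pool.Agent.H13.LN
open scoped DirectSum

/-- an element which is killed by all homomorphisms to `ℚ` is a torsion element -/
theorem torsion_of_rat {G : Type} [AddCommGroup G] [AddGroup.FG G] (g : G)
    (h : ∀ W : G →+ ℚ, W g = 0) : ∃ n : ℕ, 0 < n ∧ n • g = 0 := by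
  classical
  obtain ⟨n, ι, fι, q, hq, e, ⟨E⟩⟩ := AddCommGroup.equiv_free_prod_directSum_zmod G
  refine ⟨∏ i, q i ^ e i, Finset.prod_pos fun i _ => pow_pos (hq i).pos _, ?_⟩
  apply E.injective
  rw [map_nsmul, map_zero]
  refine Prod.ext ?_ ?_
  · have h1 : (E g).1 = 0 := by
      ext i
      have h2 := h ((((Int.castAddHom ℚ).comp (Finsupp.applyAddHom i)).comp
        (AddMonoidHom.fst _ _)).comp E.toAddMonoidHom)
      have h3 : (((E g).1 i : ℤ) : ℚ) = 0 := h2
      exact_mod_cast h3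
    rw [Prod.smul_fst, h1, smul_zero]
    rfl
  · rw [Prod.smul_snd]
    change (∏ i, q i ^ e i) • (E g).2 = 0
    refine DFinsupp.ext fun i => ?_
    have h4 : DirectSum.component ℤ ι (fun i => ZMod (q i ^ e i)) i ((∏ i, q i ^ e i) • (E g).2) =
        0 := by
      rw [map_nsmul, nsmul_eq_mul]
      have h5 : ((∏ i, q i ^ e i : ℕ) : ZMod (q i ^ e i)) = 0 :=
        (ZMod.natCast_eq_zero_iff _ _).2 (Finset.dvd_prod_of_mem _ (Finset.mem_univ i))
      rw [h5, zero_mul]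
    exact h4

theorem no_pow {G : Type} [AddCommGroup G] {p : ℕ} (h : ∀ x : G, p • x = 0 → x = 0) (k : ℕ) :
    ∀ x : G, (p ^ k) • x = 0 → x = 0 := by
  induction k with
  | zero => intro x hx; simpa using hx
  | succ k ih =>
    intro x hx
    rw [pow_succ, mul_smul] at hx
    exact h x (ih _ hx)

/-- the exponent can be chosen prime to `p` -/
theorem coprime_torsion {G : Type} [AddCommGroup G] {p : ℕ} (hp : p.Prime)
    (h : ∀ x : G, p • x = 0 → x = 0) (x : G) (hx : ∃ n : ℕ, 0 < n ∧ n • x = 0) :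
    ∃ m : ℕ, Nat.Coprime p m ∧ m • x = 0 := by
  obtain ⟨n, hn, hnx⟩ := hx
  obtain ⟨k, m, hm, hnm⟩ := Nat.exists_eq_pow_mul_and_not_dvd hn.ne' p hp.ne_one
  refine ⟨m, (Nat.Prime.coprime_iff_not_dvd hp).2 hm, ?_⟩
  rw [hnm, mul_smul] at hnx
  exact no_pow h k _ hnx

theorem zero_of_coprime {G : Type} [AddCommGroup G] {p m : ℕ} (hc : Nat.Coprime p m) (x : G)
    (h1 : p • x = 0) (h2 : m • x = 0) : x = 0 := by
  have h3 : addOrderOf x ∣ p := addOrderOf_dvd_iff_nsmul_eq_zero.2 h1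
  have h4 : addOrderOf x ∣ m := addOrderOf_dvd_iff_nsmul_eq_zero.2 h2
  have h5 : addOrderOf x ∣ 1 := by
    rw [← hc.gcd_eq_one]
    exact Nat.dvd_gcd h3 h4
  exact AddMonoid.addOrderOf_eq_one_iff.1 (Nat.dvd_one.1 h5)

/-- `G / p G` -/
abbrev Mp (p : ℕ) (G : Type) [AddCommGroup G] : Type :=
  G ⧸ (nsmulAddMonoidHom (α := G) p).range

theorem mp_zero (p : ℕ) (G : Type) [AddCommGroup G] (x : Mp p G) : p • x = 0 := by
  obtain ⟨y, rfl⟩ := QuotientAddGroup.mk_surjective x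
  rw [← QuotientAddGroup.mk_nsmul, QuotientAddGroup.eq_zero_iff]
  exact ⟨y, rfl⟩

theorem mp_mk (p : ℕ) (G : Type) [AddCommGroup G] (y : G) :
    (QuotientAddGroup.mk y : Mp p G) = 0 ↔ ∃ z, y = p • z := by
  rw [QuotientAddGroup.eq_zero_iff]
  constructor
  · rintro ⟨z, hz⟩; exact ⟨z, hz.symm⟩
  · rintro ⟨z, hz⟩; exact ⟨z, hz.symm⟩

theorem left_inv {p : ℕ} (hp : p.Prime) {M N : Type} [AddCommGroup M] [AddCommGroup N]
    (hM : ∀ x : M, p • x = 0) (hN : ∀ x : N, p • x = 0) (j : M →+ N)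
    (hj : ∀ x, j x = 0 → x = 0) : ∃ g : N →+ M, ∀ x, g (j x) = x := by
  haveI : Fact p.Prime := ⟨hp⟩
  letI : Module (ZMod p) M := AddCommGroup.zmodModule (n := p) hM
  letI : Module (ZMod p) N := AddCommGroup.zmodModule (n := p) hN
  obtain ⟨g, hg⟩ := LinearMap.exists_leftInverse_of_injective (AddMonoidHom.toZModLinearMap p j)
    (LinearMap.ker_eq_bot'.2 hj)
  exact ⟨g.toAddMonoidHom, fun x => DFunLike.congr_fun hg x⟩

/-- extension of homomorphisms to `ℤ / p` -/
theorem extend {P G : Type} [AddCommGroup P] [AddCommGroup G] {p : ℕ} (hp : p.Prime)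
    (φ : P →+ G) (W : P →+ ZMod p) (h : ∀ a : P, (∃ u, φ a = p • u) → ∃ b, a = p • b) :
    ∃ v : G →+ ZMod p, ∀ a, v (φ a) = W a := by
  -- the induced map
  let j : Mp p P →+ Mp p G := QuotientAddGroup.map _ _ φ (by
    rintro _ ⟨y, rfl⟩
    exact ⟨φ y, (map_nsmul φ p y).symm⟩)
  have hj : ∀ x : Mp p P, j x = 0 → x = 0 := by
    intro x hx
    obtain ⟨a, rfl⟩ := QuotientAddGroup.mk_surjective x
    have h1 : (QuotientAddGroup.mk (φ a) : Mp p G) = 0 := hx
    rw [mp_mk] at h1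
    rw [mp_mk]
    exact h a h1
  obtain ⟨g, hg⟩ := left_inv hp (mp_zero p P) (mp_zero p G) j hj
  let W' : Mp p P →+ ZMod p := QuotientAddGroup.lift _ W (by
    rintro _ ⟨y, rfl⟩
    change W (p • y) = 0
    rw [map_nsmul, nsmul_eq_mul, ZMod.natCast_self, zero_mul])
  refine ⟨(W'.comp g).comp (QuotientAddGroup.mk' _), ?_⟩
  intro a
  have h2 : g (j (QuotientAddGroup.mk a)) = (QuotientAddGroup.mk a : Mp p P) := hg _
  have h3 : j (QuotientAddGroup.mk a : Mp p P) = (QuotientAddGroup.mk (φ a) : Mp p G) := rfl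
  change W' (g (QuotientAddGroup.mk (φ a))) = W a
  rw [← h3, h2]
  rfl

theorem apy (U : Type) [AddCommGroup U] (F : ℕ → AddSubgroup U) (A : ℕ → Type)
    [∀ d, AddCommGroup (A d)] : T_APY U F A := by
  intro S p hp hQ hA d W
  -- the kernel of `φ` is torsion of order prime to `p`
  have hker : ∀ (d : ℕ) (y : A d), S.φ d y = 0 → ∃ m : ℕ, Nat.Coprime p m ∧ m • y = 0 := by
    intro d y hy
    have : AddGroup.FG (A d) := S.fg d
    apply coprime_torsion hp (hA d)
    apply torsion_of_rat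
    intro W
    obtain ⟨v, hv⟩ := hQ d W
    rw [← hv, hy, map_zero]
  -- no torsion of order `p` in `U / F d`
  have hU : ∀ (d : ℕ) (u : U), p • u ∈ F d → u ∈ F d := by
    intro d
    induction d with
    | zero => intro u _; rw [S.zero]; trivial
    | succ d ih =>
      intro u hu
      obtain ⟨a, ha⟩ := (S.rng d u).1 (ih u (S.anti d hu))
      have h1 : p • (QuotientAddGroup.mk u : U ⧸ F (d + 1)) = 0 := by
        rw [← QuotientAddGroup.mk_nsmul, QuotientAddGroup.eq_zero_iff]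
        exact hu
      have h2 : S.φ d (p • a) = 0 := by rw [map_nsmul, ha, h1]
      obtain ⟨m, hm, hma⟩ := hker d _ h2
      have h3 : p • (m • a) = 0 := by rw [smul_comm, hma]
      have h4 : m • (QuotientAddGroup.mk u : U ⧸ F (d + 1)) = 0 := by
        rw [← ha, ← map_nsmul, hA d _ h3, map_zero]
      have h5 := zero_of_coprime hm _ h1 h4
      rwa [QuotientAddGroup.eq_zero_iff] at h5
  apply extend hp
  rintro a ⟨w, hw⟩
  obtain ⟨u, rfl⟩ := QuotientAddGroup.mk_surjective w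
  have h1 : p • u ∈ F d := (S.rng d _).2 ⟨a, by rw [hw, QuotientAddGroup.mk_nsmul]⟩
  obtain ⟨a', ha'⟩ := (S.rng d u).1 (hU d u h1)
  have h2 : S.φ d (a - p • a') = 0 := by rw [map_sub, map_nsmul, hw, ha', sub_self]
  obtain ⟨m, hm, hma⟩ := hker d _ h2
  -- `m` is invertible modulo `p`
  have h3 : (QuotientAddGroup.mk a : Mp p (A d)) = 0 := by
    apply zero_of_coprime hm _ (mp_zero p _ _)
    rw [← QuotientAddGroup.mk_nsmul, mp_mk]
    refine ⟨m • a', ?_⟩
    rw [smul_sub, sub_eq_zero] at hma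
    rw [hma, smul_comm]
  exact (mp_mk p _ a).1 h3

end Pool.Agent.H13.LNT
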