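import Pool.Agent.H13.LNT.APY

/-!
# MP_559314_gt: groups in which the primes outside `P` are invertible
-/

set_option autoImplicit false

open Finset

namespace Pool.Agent.H13.LNT

open Pool.Agent.H59.LIN Pool.Agent.H13.LN
open scoped DirectSum

/-- `m` is a positive number without prime factors in `P` -/
def Good (P : Set ℕ) (m : ℕ) : Prop := 0 < m ∧ ∀ q : ℕ, q.Prime → q ∣ m → q ∉ P

theorem good_torsion {G : Type} [AddCommGroup G] {P : Set ℕ}
    (h : ∀ (x : G), ∀ p ∈ P, p • x = 0 → x = 0) :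
    ∀ (n : ℕ), 0 < n → ∀ x : G, n • x = 0 → ∃ m, Good P m ∧ m • x = 0 := by
  intro n
  induction n using Nat.strong_induction_on with
  | _ n ih =>
    intro hn x hx
    by_cases hg : ∀ q : ℕ, q.Prime → q ∣ n → q ∉ P
    · exact ⟨n, ⟨hn, hg⟩, hx⟩
    · push Not at hg
      obtain ⟨q, hq, ⟨c, rfl⟩, hqP⟩ := hg
      have hc : 0 < c := Nat.pos_of_mul_pos_left hn
      rw [mul_smul] at hx
      exact ih c (by nlinarith [hq.two_le]) hc x (h _ q hqP hx)

theorem good_bij {B : Type} [AddCommGroup B] {P : Set ℕ}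
    (h : ∀ q : ℕ, q.Prime → q ∉ P → Function.Bijective (fun b : B => q • b)) :
    ∀ m : ℕ, Good P m → Function.Bijective (fun b : B => m • b) := by
  intro m
  induction m using Nat.strong_induction_on with
  | _ m ih =>
    intro hm
    by_cases h1 : m = 1
    · subst h1
      have : (fun b : B => 1 • b) = id := by funext b; simp
      rw [this]
      exact Function.bijective_id
    · obtain ⟨q, hq, ⟨c, rfl⟩⟩ := Nat.exists_prime_and_dvd h1
      have hc : 0 < c := Nat.pos_of_mul_pos_left hm.1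
      have hgc : Good P c := ⟨hc, fun r hr hrc => hm.2 r hr (hrc.mul_left q)⟩
      have h2 := ih c (by nlinarith [hq.two_le]) hgc
      have h3 := h q hq (hm.2 q hq (Nat.dvd_mul_right q c))
      have : (fun b : B => (q * c) • b) = (fun b : B => q • b) ∘ (fun b : B => c • b) := by
        funext b
        simp [mul_smul]
      rw [this]
      exact h3.comp h2

/-- the torsion of a finitely generated group -/
theorem exists_exponent (G : Type) [AddCommGroup G] [AddGroup.FG G] {P : Set ℕ}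
    (h : ∀ (x : G), ∀ p ∈ P, p • x = 0 → x = 0) :
    ∃ m, Good P m ∧ ∀ x : G, IsOfFinAddOrder x → m • x = 0 := by
  classical
  have hfg : Module.Finite ℤ G := Module.Finite.iff_addGroup_fg.2 inferInstance
  have : IsNoetherian ℤ G := inferInstance
  obtain ⟨s, hs⟩ : (Submodule.torsion ℤ G).FG := IsNoetherian.noetherian _
  -- a common exponent of the generators
  have h1 : ∀ x ∈ s, ∃ m, Good P m ∧ m • x = 0 := by
    intro x hx
    have h2 : x ∈ Submodule.torsion ℤ G := by
      rw [← hs]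
      exact Submodule.subset_span hx
    rw [Submodule.mem_torsion_iff] at h2
    obtain ⟨⟨a, ha⟩, hax⟩ := h2
    have ha0 : a ≠ 0 := nonZeroDivisors.ne_zero ha
    refine good_torsion h a.natAbs (Int.natAbs_pos.2 ha0) x ?_
    have h3 : a • x = 0 := hax
    rcases Int.natAbs_eq a with h4 | h4
    · rw [h4, natCast_zsmul] at h3
      exact h3
    · rw [h4, neg_smul, natCast_zsmul, neg_eq_zero] at h3
      exact h3
  choose! μ hμ using h1
  refine ⟨∏ x ∈ s, μ x, ⟨Finset.prod_pos fun x hx => (hμ x hx).1.1, ?_⟩, ?_⟩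
  · intro q hq hqd
    obtain ⟨x, hx, hqx⟩ := (hq.prime.dvd_finsetProd_iff _).1 hqd
    exact (hμ x hx).1.2 q hq hqx
  · intro x hx
    have h2 : x ∈ Submodule.torsion ℤ G := by
      rw [Submodule.mem_torsion_iff]
      obtain ⟨n, hn, hnx⟩ := isOfFinAddOrder_iff_nsmul_eq_zero.1 hx
      refine ⟨⟨(n : ℤ), mem_nonZeroDivisors_of_ne_zero (by exact_mod_cast hn.ne')⟩, ?_⟩
      change (n : ℤ) • x = 0
      rw [natCast_zsmul, hnx]
    rw [← hs] at h2
    refine Submodule.span_induction ?_ ?_ ?_ ?_ h2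
    · intro y hy
      obtain ⟨c, hc⟩ := Finset.dvd_prod_of_mem μ hy
      rw [hc, mul_comm, mul_smul, (hμ y hy).2, smul_zero]
    · exact smul_zero _
    · intro y z _ _ hy hz
      rw [smul_add, hy, hz, add_zero]
    · intro a y _ hy
      rw [smul_comm, hy, smul_zero]

theorem ayp (U : Type) [AddCommGroup U] (F : ℕ → AddSubgroup U) (A : ℕ → Type)
    [∀ d, AddCommGroup (A d)] (hFGQ : T_FGQ U F A) (S : Sys U F A) (P : Set ℕ)
    (hP : ∀ p ∈ P, p.Prime) (hQ : S.Ys ℚ)
    (hA : ∀ (d : ℕ) (x : A d), ∀ p ∈ P, p • x = 0 → x = 0) (B : Type) [AddCommGroup B]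
    (hB : ∀ q : ℕ, q.Prime → q ∉ P → Function.Bijective (fun b : B => q • b)) : S.Ys B := by
  intro d W
  have hker : ∀ (d : ℕ) (y : A d), S.φ d y = 0 → ∃ m, Good P m ∧ m • y = 0 := by
    intro d y hy
    have : AddGroup.FG (A d) := S.fg d
    obtain ⟨n, hn, hny⟩ := torsion_of_rat y (fun W => by
      obtain ⟨v, hv⟩ := hQ d W
      rw [← hv, hy, map_zero])
    exact good_torsion (hA d) n hn y hny
  have hU : ∀ (d : ℕ) (u : U), ∀ p ∈ P, p • u ∈ F d → u ∈ F d := by
    intro d
    induction d with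
    | zero => intro u _ _ _; rw [S.zero]; trivial
    | succ d ih =>
      intro u p hp hu
      obtain ⟨a, ha⟩ := (S.rng d u).1 (ih u p hp (S.anti d hu))
      have h1 : p • (QuotientAddGroup.mk u : U ⧸ F (d + 1)) = 0 := by
        rw [← QuotientAddGroup.mk_nsmul, QuotientAddGroup.eq_zero_iff]
        exact hu
      have h2 : S.φ d (p • a) = 0 := by rw [map_nsmul, ha, h1]
      obtain ⟨m, hm, hma⟩ := hker d _ h2
      have h3 : p • (m • a) = 0 := by rw [smul_comm, hma]
      have h4 : m • (QuotientAddGroup.mk u : U ⧸ F (d + 1)) = 0 := by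
        rw [← ha, ← map_nsmul, hA d _ p hp h3, map_zero]
      have hc : Nat.Coprime p m :=
        (Nat.Prime.coprime_iff_not_dvd (hP p hp)).2 fun h => hm.2 p (hP p hp) h hp
      have h5 := zero_of_coprime hc _ h1 h4
      rwa [QuotientAddGroup.eq_zero_iff] at h5
  -- `W` kills the kernel of `φ`
  have hW : ∀ y, S.φ d y = 0 → W y = 0 := by
    intro y hy
    obtain ⟨m, hm, hmy⟩ := hker d y hy
    apply (good_bij hB m hm).1
    change m • W y = m • (0 : B)
    rw [← map_nsmul, hmy, map_zero, smul_zero]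
  let w : (S.φ d).range →+ B := (QuotientAddGroup.lift (S.φ d).ker W (fun y hy => hW y hy)).comp
    (QuotientAddGroup.quotientKerEquivRange (S.φ d)).symm.toAddMonoidHom
  have hw : ∀ a, w ⟨S.φ d a, a, rfl⟩ = W a := by
    intro a
    have h1 : (QuotientAddGroup.quotientKerEquivRange (S.φ d)).symm ⟨S.φ d a, a, rfl⟩ =
        QuotientAddGroup.mk a := by
      rw [AddEquiv.symm_apply_eq]
      rfl
    change (QuotientAddGroup.lift (S.φ d).ker W (fun y hy => hW y hy))
      ((QuotientAddGroup.quotientKerEquivRange (S.φ d)).symm ⟨S.φ d a, a, rfl⟩) = W a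
    rw [h1]
    rfl
  -- the torsion of `U / F d`
  have hfg : AddGroup.FG (U ⧸ F d) := hFGQ S d
  have hfin : Module.Finite ℤ (U ⧸ F d) := Module.Finite.iff_addGroup_fg.2 hfg
  obtain ⟨m, hm, hmt⟩ := exists_exponent (U ⧸ F d) (P := P) (by
    intro x p hp hx
    obtain ⟨u, rfl⟩ := QuotientAddGroup.mk_surjective x
    rw [← QuotientAddGroup.mk_nsmul, QuotientAddGroup.eq_zero_iff] at hx
    rw [QuotientAddGroup.eq_zero_iff]
    exact hU d u p hp hx)
  let π : U ⧸ F (d + 1) →+ U ⧸ F d :=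
    QuotientAddGroup.map _ _ (AddMonoidHom.id U) (S.anti d)
  have hπ : Function.Surjective π := by
    intro x
    obtain ⟨u, rfl⟩ := QuotientAddGroup.mk_surjective x
    exact ⟨QuotientAddGroup.mk u, rfl⟩
  have hπ0 : ∀ g, π g = 0 → g ∈ (S.φ d).range := by
    intro g hg
    obtain ⟨u, rfl⟩ := QuotientAddGroup.mk_surjective g
    have h1 : (QuotientAddGroup.mk u : U ⧸ F d) = 0 := hg
    rw [QuotientAddGroup.eq_zero_iff] at h1
    obtain ⟨a, ha⟩ := (S.rng d u).1 h1
    exact ⟨a, ha⟩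
  have hφ0 : ∀ a, π (S.φ d a) = 0 := by
    intro a
    obtain ⟨u, hu⟩ := QuotientAddGroup.mk_surjective (S.φ d a)
    rw [← hu]
    change (QuotientAddGroup.mk u : U ⧸ F d) = 0
    rw [QuotientAddGroup.eq_zero_iff]
    exact (S.rng d u).2 ⟨a, hu.symm⟩
  let T := Submodule.torsion ℤ (U ⧸ F d)
  have hfree : Module.Free ℤ ((U ⧸ F d) ⧸ T) := inferInstance
  let q : U ⧸ F (d + 1) →ₗ[ℤ] (U ⧸ F d) ⧸ T := T.mkQ.comp π.toIntLinearMap
  have hq : Function.Surjective q := (Submodule.mkQ_surjective T).comp hπ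
  obtain ⟨s, hs⟩ := Module.projective_lifting_property q LinearMap.id hq
  have hs' : ∀ x, q (s x) = x := fun x => DFunLike.congr_fun hs x
  let f₁ : U ⧸ F (d + 1) →+ U ⧸ F (d + 1) :=
    (nsmulAddMonoidHom m).comp (AddMonoidHom.id _ - (s.comp q).toAddMonoidHom)
  have hf₁ : ∀ g, f₁ g ∈ (S.φ d).range := by
    intro g
    apply hπ0
    have h1 : q (g - s (q g)) = 0 := by rw [map_sub, hs', sub_self]
    have h2 : π (g - s (q g)) ∈ T := (Submodule.Quotient.mk_eq_zero T).1 h1
    have h3 : m • π (g - s (q g)) = 0 := by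
      apply hmt
      rw [isOfFinAddOrder_iff_nsmul_eq_zero]
      obtain ⟨⟨a, ha⟩, hax⟩ := (Submodule.mem_torsion_iff _).1 h2
      have ha0 : a ≠ 0 := nonZeroDivisors.ne_zero ha
      refine ⟨a.natAbs, Int.natAbs_pos.2 ha0, ?_⟩
      have h4 : a • π (g - s (q g)) = 0 := hax
      rcases Int.natAbs_eq a with h5 | h5
      · rw [h5, natCast_zsmul] at h4
        exact h4
      · rw [h5, neg_smul, natCast_zsmul, neg_eq_zero] at h4
        exact h4
    change π (m • (g - s (q g))) = 0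
    rw [map_nsmul, h3]
  let Mi : B ≃+ B := AddEquiv.ofBijective (nsmulAddMonoidHom (α := B) m) (good_bij hB m hm)
  refine ⟨(Mi.symm.toAddMonoidHom.comp w).comp (f₁.codRestrict _ hf₁), ?_⟩
  intro a
  have h1 : q (S.φ d a) = 0 := by
    change T.mkQ (π (S.φ d a)) = 0
    rw [hφ0, map_zero]
  have h2 : f₁ (S.φ d a) = S.φ d (m • a) := by
    change m • (S.φ d a - s (q (S.φ d a))) = _
    rw [h1, map_zero, sub_zero, map_nsmul]
  have h3 : f₁.codRestrict _ hf₁ (S.φ d a) = ⟨S.φ d (m • a), m • a, rfl⟩ := Subtype.ext h2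
  change Mi.symm (w (f₁.codRestrict _ hf₁ (S.φ d a))) = W a
  rw [h3, hw, AddEquiv.symm_apply_eq]
  exact map_nsmul W m a

end Pool.Agent.H13.LNT
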